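import Pool.Agent.NNr.R13_1_1_4.D0
import Pool.Agent.NNr.R13_1_1_4.D1
import Pool.Agent.NNe.Slots

set_option linter.all false
set_option maxRecDepth 1000000
namespace Pool.Agent.NNr.R13_1_1_4

open Pool.Agent.NNe

def rf1_30 : rfCk (nat_lit 58) (nat_lit 2) (nat_lit 57) (nat_lit 8) (nat_lit 9) (nat_lit 0) (nat_lit 30) TL1 CL0 CL1 = true := by decide +kernel
def st1_30_0 : starCk (nat_lit 57) (nat_lit 8) (nat_lit 1) (nat_lit 4) (nat_lit 51) (nat_lit 150) (nat_lit 16) C1_30 = true := by decide +kernel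
def sc1_30 : stCov (nat_lit 1) (nat_lit 150) (Rl.cons (nat_lit 150) (nat_lit 51) Rl.nil) C1_30 = true := by decide +kernel
def wf1_31 : wfC (nat_lit 57) (nat_lit 8) C1_31 = true := by decide +kernel
def rf1_31 : rfCk (nat_lit 58) (nat_lit 2) (nat_lit 57) (nat_lit 8) (nat_lit 9) (nat_lit 0) (nat_lit 31) TL1 CL0 CL1 = true := by decide +kernel
def st1_31_0 : starCk (nat_lit 57) (nat_lit 8) (nat_lit 1) (nat_lit 4) (nat_lit 31) (nat_lit 39) (nat_lit 1) C1_31 = true := by decide +kernel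
def sc1_31 : stCov (nat_lit 0) (nat_lit 39) (Rl.cons (nat_lit 39) (nat_lit 31) Rl.nil) C1_31 = true := by decide +kernel
def wf1_32 : wfC (nat_lit 57) (nat_lit 8) C1_32 = true := by decide +kernel
def rf1_32 : rfCk (nat_lit 58) (nat_lit 2) (nat_lit 57) (nat_lit 8) (nat_lit 9) (nat_lit 0) (nat_lit 32) TL1 CL0 CL1 = true := by decide +kernel
def st1_32_0 : starCk (nat_lit 57) (nat_lit 8) (nat_lit 1) (nat_lit 4) (nat_lit 84) (nat_lit 150) (nat_lit 256) C1_32 = true := by decide +kernel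
def sc1_32 : stCov (nat_lit 2) (nat_lit 150) (Rl.cons (nat_lit 150) (nat_lit 84) Rl.nil) C1_32 = true := by decide +kernel
def wf1_33 : wfC (nat_lit 57) (nat_lit 8) C1_33 = true := by decide +kernel
def rf1_33 : rfCk (nat_lit 58) (nat_lit 2) (nat_lit 57) (nat_lit 8) (nat_lit 9) (nat_lit 0) (nat_lit 33) TL1 CL0 CL1 = true := by decide +kernel
def st1_33_0 : starCk (nat_lit 57) (nat_lit 8) (nat_lit 1) (nat_lit 4) (nat_lit 40) (nat_lit 52) (nat_lit 1) C1_33 = true := by decide +kernel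
def sc1_33 : stCov (nat_lit 0) (nat_lit 52) (Rl.cons (nat_lit 52) (nat_lit 40) Rl.nil) C1_33 = true := by decide +kernel
def wf1_34 : wfC (nat_lit 57) (nat_lit 8) C1_34 = true := by decide +kernel
def rf1_34 : rfCk (nat_lit 58) (nat_lit 2) (nat_lit 57) (nat_lit 8) (nat_lit 9) (nat_lit 0) (nat_lit 34) TL1 CL0 CL1 = true := by decide +kernel
def st1_34_0 : starCk (nat_lit 57) (nat_lit 8) (nat_lit 1) (nat_lit 4) (nat_lit 96) (nat_lit 184) (nat_lit 4096) C1_34 = true := by decide +kernel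
def sc1_34 : stCov (nat_lit 3) (nat_lit 184) (Rl.cons (nat_lit 184) (nat_lit 96) Rl.nil) C1_34 = true := by decide +kernel
def wf1_35 : wfC (nat_lit 57) (nat_lit 8) C1_35 = true := by decide +kernel
def rf1_35 : rfCk (nat_lit 58) (nat_lit 2) (nat_lit 57) (nat_lit 8) (nat_lit 9) (nat_lit 0) (nat_lit 35) TL1 CL0 CL1 = true := by decide +kernel
def st1_35_0 : starCk (nat_lit 57) (nat_lit 8) (nat_lit 1) (nat_lit 4) (nat_lit 96) (nat_lit 184) (nat_lit 4096) C1_35 = true := by decide +kernel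
def sc1_35 : stCov (nat_lit 3) (nat_lit 184) (Rl.cons (nat_lit 184) (nat_lit 96) Rl.nil) C1_35 = true := by decide +kernel
def wf1_36 : wfC (nat_lit 57) (nat_lit 8) C1_36 = true := by decide +kernel
def rf1_36 : rfCk (nat_lit 58) (nat_lit 2) (nat_lit 57) (nat_lit 8) (nat_lit 9) (nat_lit 0) (nat_lit 36) TL1 CL0 CL1 = true := by decide +kernel
def st1_36_0 : starCk (nat_lit 57) (nat_lit 8) (nat_lit 1) (nat_lit 4) (nat_lit 39) (nat_lit 92) (nat_lit 16) C1_36 = true := by decide +kernel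
def sc1_36 : stCov (nat_lit 1) (nat_lit 92) (Rl.cons (nat_lit 92) (nat_lit 39) Rl.nil) C1_36 = true := by decide +kernel
def wf1_37 : wfC (nat_lit 57) (nat_lit 8) C1_37 = true := by decide +kernel
def rf1_37 : rfCk (nat_lit 58) (nat_lit 2) (nat_lit 57) (nat_lit 8) (nat_lit 9) (nat_lit 0) (nat_lit 37) TL1 CL0 CL1 = true := by decide +kernel
def st1_37_0 : starCk (nat_lit 57) (nat_lit 8) (nat_lit 1) (nat_lit 4) (nat_lit 48) (nat_lit 70) (nat_lit 4096) C1_37 = true := by decide +kernel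
def sc1_37 : stCov (nat_lit 3) (nat_lit 70) (Rl.cons (nat_lit 70) (nat_lit 48) Rl.nil) C1_37 = true := by decide +kernel
def ti1_0 : tileCk (nat_lit 57) (nat_lit 8) (nat_lit 2) (nat_lit 3) (nat_lit 374) (nat_lit 13) (nat_lit 38) ZL1_0 CL1 = true := by decide +kernel
def zl1_0 : zlOK (nat_lit 374) ZL1_0 = true := by decide +kernel
def ti1_1 : tileCk (nat_lit 57) (nat_lit 8) (nat_lit 2) (nat_lit 3) (nat_lit 374) (nat_lit 13) (nat_lit 38) ZL1_1 CL1 = true := by decide +kernel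
def zl1_1 : zlOK (nat_lit 374) ZL1_1 = true := by decide +kernel
def tc1_0 : tiCov (nat_lit 1) (nat_lit 0) ZZ1 C1_0 = true := by decide +kernel
def tc1_1 : tiCov (nat_lit 1) (nat_lit 1) ZZ1 C1_1 = true := by decide +kernel
def tc1_2 : tiCov (nat_lit 1) (nat_lit 2) ZZ1 C1_2 = true := by decide +kernel
def tc1_4 : tiCov (nat_lit 1) (nat_lit 4) ZZ1 C1_4 = true := by decide +kernel
def tc1_5 : tiCov (nat_lit 1) (nat_lit 5) ZZ1 C1_5 = true := by decide +kernel
def tc1_7 : tiCov (nat_lit 1) (nat_lit 7) ZZ1 C1_7 = true := by decide +kernel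
def tc1_8 : tiCov (nat_lit 1) (nat_lit 8) ZZ1 C1_8 = true := by decide +kernel
def tc1_10 : tiCov (nat_lit 1) (nat_lit 10) ZZ1 C1_10 = true := by decide +kernel
def tc1_11 : tiCov (nat_lit 1) (nat_lit 11) ZZ1 C1_11 = true := by decide +kernel
def tc1_13 : tiCov (nat_lit 1) (nat_lit 13) ZZ1 C1_13 = true := by decide +kernel
def tc1_14 : tiCov (nat_lit 1) (nat_lit 14) ZZ1 C1_14 = true := by decide +kernel
def tc1_16 : tiCov (nat_lit 1) (nat_lit 16) ZZ1 C1_16 = true := by decide +kernel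
def tc1_18 : tiCov (nat_lit 1) (nat_lit 18) ZZ1 C1_18 = true := by decide +kernel
def tc1_20 : tiCov (nat_lit 1) (nat_lit 20) ZZ1 C1_20 = true := by decide +kernel
def tc1_22 : tiCov (nat_lit 1) (nat_lit 22) ZZ1 C1_22 = true := by decide +kernel
def tc1_28 : tiCov (nat_lit 1) (nat_lit 28) ZZ1 C1_28 = true := by decide +kernel
def tc1_29 : tiCov (nat_lit 1) (nat_lit 29) ZZ1 C1_29 = true := by decide +kernel
def tc1_30 : tiCov (nat_lit 1) (nat_lit 30) ZZ1 C1_30 = true := by decide +kernel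
def tc1_31 : tiCov (nat_lit 1) (nat_lit 31) ZZ1 C1_31 = true := by decide +kernel
def tc1_32 : tiCov (nat_lit 1) (nat_lit 32) ZZ1 C1_32 = true := by decide +kernel
def tc1_33 : tiCov (nat_lit 1) (nat_lit 33) ZZ1 C1_33 = true := by decide +kernel
def tc1_34 : tiCov (nat_lit 1) (nat_lit 34) ZZ1 C1_34 = true := by decide +kernel
def tc1_35 : tiCov (nat_lit 1) (nat_lit 35) ZZ1 C1_35 = true := by decide +kernel
def tc1_36 : tiCov (nat_lit 1) (nat_lit 36) ZZ1 C1_36 = true := by decide +kernel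
def tc1_37 : tiCov (nat_lit 1) (nat_lit 37) ZZ1 C1_37 = true := by decide +kernel
def de1_0 : deadCk (nat_lit 57) (nat_lit 8) C1_0 = true := by decide +kernel
def de1_1 : deadCk (nat_lit 57) (nat_lit 8) C1_1 = true := by decide +kernel
def de1_2 : deadCk (nat_lit 57) (nat_lit 8) C1_2 = true := by decide +kernel
def de1_4 : deadCk (nat_lit 57) (nat_lit 8) C1_4 = true := by decide +kernel
def de1_5 : deadCk (nat_lit 57) (nat_lit 8) C1_5 = true := by decide +kernel
def de1_7 : deadCk (nat_lit 57) (nat_lit 8) C1_7 = true := by decide +kernel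
def de1_8 : deadCk (nat_lit 57) (nat_lit 8) C1_8 = true := by decide +kernel
def de1_10 : deadCk (nat_lit 57) (nat_lit 8) C1_10 = true := by decide +kernel
def de1_11 : deadCk (nat_lit 57) (nat_lit 8) C1_11 = true := by decide +kernel
def de1_13 : deadCk (nat_lit 57) (nat_lit 8) C1_13 = true := by decide +kernel
def de1_14 : deadCk (nat_lit 57) (nat_lit 8) C1_14 = true := by decide +kernel
def de1_16 : deadCk (nat_lit 57) (nat_lit 8) C1_16 = true := by decide +kernel
def de1_18 : deadCk (nat_lit 57) (nat_lit 8) C1_18 = true := by decide +kernel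
def de1_20 : deadCk (nat_lit 57) (nat_lit 8) C1_20 = true := by decide +kernel
def de1_22 : deadCk (nat_lit 57) (nat_lit 8) C1_22 = true := by decide +kernel
def de1_28 : deadCk (nat_lit 57) (nat_lit 8) C1_28 = true := by decide +kernel
def de1_29 : deadCk (nat_lit 57) (nat_lit 8) C1_29 = true := by decide +kernel
def de1_30 : deadCk (nat_lit 57) (nat_lit 8) C1_30 = true := by decide +kernel
def de1_31 : deadCk (nat_lit 57) (nat_lit 8) C1_31 = true := by decide +kernel
def de1_32 : deadCk (nat_lit 57) (nat_lit 8) C1_32 = true := by decide +kernel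
def de1_33 : deadCk (nat_lit 57) (nat_lit 8) C1_33 = true := by decide +kernel
def de1_34 : deadCk (nat_lit 57) (nat_lit 8) C1_34 = true := by decide +kernel
def de1_35 : deadCk (nat_lit 57) (nat_lit 8) C1_35 = true := by decide +kernel
def de1_36 : deadCk (nat_lit 57) (nat_lit 8) C1_36 = true := by decide +kernel
def de1_37 : deadCk (nat_lit 57) (nat_lit 8) C1_37 = true := by decide +kernel
def sc0_0 : stCov (nat_lit 2) (nat_lit 0) (Rl.cons (nat_lit 0) (nat_lit 108) Rl.nil) C0_0 = true := by decide +kernel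
def sc0_1 : stCov (nat_lit 1) (nat_lit 0) (Rl.cons (nat_lit 0) (nat_lit 180) Rl.nil) C0_1 = true := by decide +kernel
def sc0_2 : stCov (nat_lit 1) (nat_lit 0) (Rl.cons (nat_lit 0) (nat_lit 77) Rl.nil) C0_2 = true := by decide +kernel
def sc0_3 : stCov (nat_lit 1) (nat_lit 0) (Rl.cons (nat_lit 0) (nat_lit 8) Rl.nil) C0_3 = true := by decide +kernel
def sc0_4 : stCov (nat_lit 0) (nat_lit 0) (Rl.cons (nat_lit 0) (nat_lit 324) Rl.nil) C0_4 = true := by decide +kernel
def sc0_5 : stCov (nat_lit 0) (nat_lit 0) (Rl.cons (nat_lit 0) (nat_lit 175) Rl.nil) C0_5 = true := by decide +kernel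
def sc0_6 : stCov (nat_lit 0) (nat_lit 0) (Rl.cons (nat_lit 0) (nat_lit 24) Rl.nil) C0_6 = true := by decide +kernel
def sc0_7 : stCov (nat_lit 0) (nat_lit 0) (Rl.cons (nat_lit 0) (nat_lit 352) Rl.nil) C0_7 = true := by decide +kernel
def sc0_8 : stCov (nat_lit 0) (nat_lit 0) (Rl.cons (nat_lit 0) (nat_lit 196) Rl.nil) C0_8 = true := by decide +kernel
def sc0_9 : stCov (nat_lit 0) (nat_lit 0) (Rl.cons (nat_lit 0) (nat_lit 32) Rl.nil) C0_9 = true := by decide +kernel
def sc0_10 : stCov (nat_lit 0) (nat_lit 0) (Rl.cons (nat_lit 0) (nat_lit 324) Rl.nil) C0_10 = true := by decide +kernel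
def sc0_11 : stCov (nat_lit 0) (nat_lit 0) (Rl.cons (nat_lit 0) (nat_lit 196) Rl.nil) C0_11 = true := by decide +kernel
def sc0_12 : stCov (nat_lit 0) (nat_lit 0) (Rl.cons (nat_lit 0) (nat_lit 32) Rl.nil) C0_12 = true := by decide +kernel
def sc0_13 : stCov (nat_lit 0) (nat_lit 0) (Rl.cons (nat_lit 0) (nat_lit 180) Rl.nil) C0_13 = true := by decide +kernel
def sc0_14 : stCov (nat_lit 0) (nat_lit 0) (Rl.cons (nat_lit 0) (nat_lit 196) Rl.nil) C0_14 = true := by decide +kernel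
def sc0_15 : stCov (nat_lit 0) (nat_lit 0) (Rl.cons (nat_lit 0) (nat_lit 32) Rl.nil) C0_15 = true := by decide +kernel
def sc0_16 : stCov (nat_lit 0) (nat_lit 0) (Rl.cons (nat_lit 0) (nat_lit 196) Rl.nil) C0_16 = true := by decide +kernel
def sc0_17 : stCov (nat_lit 0) (nat_lit 0) (Rl.cons (nat_lit 0) (nat_lit 32) Rl.nil) C0_17 = true := by decide +kernel
def sc0_18 : stCov (nat_lit 0) (nat_lit 0) (Rl.cons (nat_lit 0) (nat_lit 196) Rl.nil) C0_18 = true := by decide +kernel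
def sc0_19 : stCov (nat_lit 0) (nat_lit 0) (Rl.cons (nat_lit 0) (nat_lit 32) Rl.nil) C0_19 = true := by decide +kernel
def sc0_20 : stCov (nat_lit 0) (nat_lit 0) (Rl.cons (nat_lit 0) (nat_lit 175) Rl.nil) C0_20 = true := by decide +kernel
def sc0_21 : stCov (nat_lit 0) (nat_lit 0) (Rl.cons (nat_lit 0) (nat_lit 32) Rl.nil) C0_21 = true := by decide +kernel
def sc0_22 : stCov (nat_lit 0) (nat_lit 0) (Rl.cons (nat_lit 0) (nat_lit 77) Rl.nil) C0_22 = true := by decide +kernel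
def sc0_23 : stCov (nat_lit 0) (nat_lit 0) (Rl.cons (nat_lit 0) (nat_lit 32) Rl.nil) C0_23 = true := by decide +kernel
def sc0_24 : stCov (nat_lit 0) (nat_lit 0) (Rl.cons (nat_lit 0) (nat_lit 32) Rl.nil) C0_24 = true := by decide +kernel
def sc0_25 : stCov (nat_lit 0) (nat_lit 0) (Rl.cons (nat_lit 0) (nat_lit 32) Rl.nil) C0_25 = true := by decide +kernel
def sc0_26 : stCov (nat_lit 0) (nat_lit 0) (Rl.cons (nat_lit 0) (nat_lit 24) Rl.nil) C0_26 = true := by decide +kernel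
def sc0_27 : stCov (nat_lit 0) (nat_lit 0) (Rl.cons (nat_lit 0) (nat_lit 8) Rl.nil) C0_27 = true := by decide +kernel
def sc0_28 : stCov (nat_lit 1) (nat_lit 0) (Rl.cons (nat_lit 0) (nat_lit 741) Rl.nil) C0_28 = true := by decide +kernel
def sc0_29 : stCov (nat_lit 1) (nat_lit 0) (Rl.cons (nat_lit 0) (nat_lit 242) Rl.nil) C0_29 = true := by decide +kernel
def sc0_30 : stCov (nat_lit 0) (nat_lit 0) (Rl.cons (nat_lit 0) (nat_lit 1082) Rl.nil) C0_30 = true := by decide +kernel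
def sc0_31 : stCov (nat_lit 0) (nat_lit 0) (Rl.cons (nat_lit 0) (nat_lit 512) Rl.nil) C0_31 = true := by decide +kernel
def sc0_32 : stCov (nat_lit 0) (nat_lit 0) (Rl.cons (nat_lit 0) (nat_lit 741) Rl.nil) C0_32 = true := by decide +kernel

end Pool.Agent.NNr.R13_1_1_4
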