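import Pool.Agent.NNr.R13_1_1_4.D0
import Pool.Agent.NNr.R13_1_1_4.D1
import Pool.Agent.NNe.Slots

set_option linter.all false
set_option maxRecDepth 1000000
namespace Pool.Agent.NNr.R13_1_1_4

open Pool.Agent.NNe

def sc0_33 : stCov (nat_lit 0) (nat_lit 0) (Rl.cons (nat_lit 0) (nat_lit 540) Rl.nil) C0_33 = true := by decide +kernel
def sc0_34 : stCov (nat_lit 0) (nat_lit 0) (Rl.cons (nat_lit 0) (nat_lit 540) Rl.nil) C0_34 = true := by decide +kernel
def sc0_35 : stCov (nat_lit 0) (nat_lit 0) (Rl.cons (nat_lit 0) (nat_lit 540) Rl.nil) C0_35 = true := by decide +kernel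
def sc0_36 : stCov (nat_lit 0) (nat_lit 0) (Rl.cons (nat_lit 0) (nat_lit 512) Rl.nil) C0_36 = true := by decide +kernel
def sc0_37 : stCov (nat_lit 0) (nat_lit 0) (Rl.cons (nat_lit 0) (nat_lit 242) Rl.nil) C0_37 = true := by decide +kernel
def wf1_3 : wfC (nat_lit 57) (nat_lit 8) C1_3 = true := by decide +kernel
def wf1_6 : wfC (nat_lit 57) (nat_lit 8) C1_6 = true := by decide +kernel
def wf1_9 : wfC (nat_lit 57) (nat_lit 8) C1_9 = true := by decide +kernel
def wf1_12 : wfC (nat_lit 57) (nat_lit 8) C1_12 = true := by decide +kernel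
def wf1_15 : wfC (nat_lit 57) (nat_lit 8) C1_15 = true := by decide +kernel
def wf1_17 : wfC (nat_lit 57) (nat_lit 8) C1_17 = true := by decide +kernel
def wf1_19 : wfC (nat_lit 57) (nat_lit 8) C1_19 = true := by decide +kernel
def wf1_21 : wfC (nat_lit 57) (nat_lit 8) C1_21 = true := by decide +kernel
def wf1_23 : wfC (nat_lit 57) (nat_lit 8) C1_23 = true := by decide +kernel
def wf1_24 : wfC (nat_lit 57) (nat_lit 8) C1_24 = true := by decide +kernel
def wf1_25 : wfC (nat_lit 57) (nat_lit 8) C1_25 = true := by decide +kernel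
def wf1_26 : wfC (nat_lit 57) (nat_lit 8) C1_26 = true := by decide +kernel
def wf1_27 : wfC (nat_lit 57) (nat_lit 8) C1_27 = true := by decide +kernel
def rf1_3 : rfCk (nat_lit 58) (nat_lit 2) (nat_lit 57) (nat_lit 8) (nat_lit 9) (nat_lit 0) (nat_lit 3) TL1 CL0 CL1 = true := by decide +kernel
def rf1_6 : rfCk (nat_lit 58) (nat_lit 2) (nat_lit 57) (nat_lit 8) (nat_lit 9) (nat_lit 0) (nat_lit 6) TL1 CL0 CL1 = true := by decide +kernel
def rf1_9 : rfCk (nat_lit 58) (nat_lit 2) (nat_lit 57) (nat_lit 8) (nat_lit 9) (nat_lit 0) (nat_lit 9) TL1 CL0 CL1 = true := by decide +kernel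
def rf1_12 : rfCk (nat_lit 58) (nat_lit 2) (nat_lit 57) (nat_lit 8) (nat_lit 9) (nat_lit 0) (nat_lit 12) TL1 CL0 CL1 = true := by decide +kernel
def rf1_15 : rfCk (nat_lit 58) (nat_lit 2) (nat_lit 57) (nat_lit 8) (nat_lit 9) (nat_lit 0) (nat_lit 15) TL1 CL0 CL1 = true := by decide +kernel
def rf1_17 : rfCk (nat_lit 58) (nat_lit 2) (nat_lit 57) (nat_lit 8) (nat_lit 9) (nat_lit 0) (nat_lit 17) TL1 CL0 CL1 = true := by decide +kernel
def rf1_19 : rfCk (nat_lit 58) (nat_lit 2) (nat_lit 57) (nat_lit 8) (nat_lit 9) (nat_lit 0) (nat_lit 19) TL1 CL0 CL1 = true := by decide +kernel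
def rf1_21 : rfCk (nat_lit 58) (nat_lit 2) (nat_lit 57) (nat_lit 8) (nat_lit 9) (nat_lit 0) (nat_lit 21) TL1 CL0 CL1 = true := by decide +kernel
def rf1_23 : rfCk (nat_lit 58) (nat_lit 2) (nat_lit 57) (nat_lit 8) (nat_lit 9) (nat_lit 0) (nat_lit 23) TL1 CL0 CL1 = true := by decide +kernel
def rf1_24 : rfCk (nat_lit 58) (nat_lit 2) (nat_lit 57) (nat_lit 8) (nat_lit 9) (nat_lit 0) (nat_lit 24) TL1 CL0 CL1 = true := by decide +kernel
def rf1_25 : rfCk (nat_lit 58) (nat_lit 2) (nat_lit 57) (nat_lit 8) (nat_lit 9) (nat_lit 0) (nat_lit 25) TL1 CL0 CL1 = true := by decide +kernel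
def rf1_26 : rfCk (nat_lit 58) (nat_lit 2) (nat_lit 57) (nat_lit 8) (nat_lit 9) (nat_lit 0) (nat_lit 26) TL1 CL0 CL1 = true := by decide +kernel
def rf1_27 : rfCk (nat_lit 58) (nat_lit 2) (nat_lit 57) (nat_lit 8) (nat_lit 9) (nat_lit 0) (nat_lit 27) TL1 CL0 CL1 = true := by decide +kernel
def sc1_3 : stCov (nat_lit 1) (nat_lit 0) Rl.nil C1_3 = true := by decide +kernel
def sc1_6 : stCov (nat_lit 0) (nat_lit 0) Rl.nil C1_6 = true := by decide +kernel
def sc1_9 : stCov (nat_lit 0) (nat_lit 0) Rl.nil C1_9 = true := by decide +kernel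
def sc1_12 : stCov (nat_lit 0) (nat_lit 0) Rl.nil C1_12 = true := by decide +kernel
def sc1_15 : stCov (nat_lit 0) (nat_lit 0) Rl.nil C1_15 = true := by decide +kernel
def sc1_17 : stCov (nat_lit 0) (nat_lit 0) Rl.nil C1_17 = true := by decide +kernel
def sc1_19 : stCov (nat_lit 0) (nat_lit 0) Rl.nil C1_19 = true := by decide +kernel
def sc1_21 : stCov (nat_lit 0) (nat_lit 0) Rl.nil C1_21 = true := by decide +kernel
def sc1_23 : stCov (nat_lit 0) (nat_lit 0) Rl.nil C1_23 = true := by decide +kernel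
def sc1_24 : stCov (nat_lit 0) (nat_lit 0) Rl.nil C1_24 = true := by decide +kernel
def sc1_25 : stCov (nat_lit 0) (nat_lit 0) Rl.nil C1_25 = true := by decide +kernel
def sc1_26 : stCov (nat_lit 0) (nat_lit 0) Rl.nil C1_26 = true := by decide +kernel
def sc1_27 : stCov (nat_lit 0) (nat_lit 0) Rl.nil C1_27 = true := by decide +kernel
def tc1_3 : tiCov (nat_lit 1) (nat_lit 3) ZZ1 C1_3 = true := by decide +kernel
def tc1_6 : tiCov (nat_lit 1) (nat_lit 6) ZZ1 C1_6 = true := by decide +kernel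
def tc1_9 : tiCov (nat_lit 1) (nat_lit 9) ZZ1 C1_9 = true := by decide +kernel
def tc1_12 : tiCov (nat_lit 1) (nat_lit 12) ZZ1 C1_12 = true := by decide +kernel
def tc1_15 : tiCov (nat_lit 1) (nat_lit 15) ZZ1 C1_15 = true := by decide +kernel
def tc1_17 : tiCov (nat_lit 1) (nat_lit 17) ZZ1 C1_17 = true := by decide +kernel
def tc1_19 : tiCov (nat_lit 1) (nat_lit 19) ZZ1 C1_19 = true := by decide +kernel
def tc1_21 : tiCov (nat_lit 1) (nat_lit 21) ZZ1 C1_21 = true := by decide +kernel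
def tc1_23 : tiCov (nat_lit 1) (nat_lit 23) ZZ1 C1_23 = true := by decide +kernel
def tc1_24 : tiCov (nat_lit 1) (nat_lit 24) ZZ1 C1_24 = true := by decide +kernel
def tc1_25 : tiCov (nat_lit 1) (nat_lit 25) ZZ1 C1_25 = true := by decide +kernel
def tc1_26 : tiCov (nat_lit 1) (nat_lit 26) ZZ1 C1_26 = true := by decide +kernel
def tc1_27 : tiCov (nat_lit 1) (nat_lit 27) ZZ1 C1_27 = true := by decide +kernel
def de1_3 : deadCk (nat_lit 57) (nat_lit 8) C1_3 = true := by decide +kernel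
def de1_6 : deadCk (nat_lit 57) (nat_lit 8) C1_6 = true := by decide +kernel
def de1_9 : deadCk (nat_lit 57) (nat_lit 8) C1_9 = true := by decide +kernel
def de1_12 : deadCk (nat_lit 57) (nat_lit 8) C1_12 = true := by decide +kernel
def de1_15 : deadCk (nat_lit 57) (nat_lit 8) C1_15 = true := by decide +kernel
def de1_17 : deadCk (nat_lit 57) (nat_lit 8) C1_17 = true := by decide +kernel
def de1_19 : deadCk (nat_lit 57) (nat_lit 8) C1_19 = true := by decide +kernel
def de1_21 : deadCk (nat_lit 57) (nat_lit 8) C1_21 = true := by decide +kernel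
def de1_23 : deadCk (nat_lit 57) (nat_lit 8) C1_23 = true := by decide +kernel
def de1_24 : deadCk (nat_lit 57) (nat_lit 8) C1_24 = true := by decide +kernel
def de1_25 : deadCk (nat_lit 57) (nat_lit 8) C1_25 = true := by decide +kernel
def de1_26 : deadCk (nat_lit 57) (nat_lit 8) C1_26 = true := by decide +kernel
def de1_27 : deadCk (nat_lit 57) (nat_lit 8) C1_27 = true := by decide +kernel

end Pool.Agent.NNr.R13_1_1_4
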